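import Pool.Agent.Helper10.SP.GoalsT
import Pool.Agent.Helper95.Lin.Basics

/-!
# Packet SP ARRB: basics on the arrows of an étale relation
-/

open Complex Metric Set Filter Topology MeasureTheory
open scoped ContDiff ComplexConjugate ComplexOrder Manifold

namespace Pool.Agent.Helper32.SP

open Pool.Agent.Helper95.Lin Pool.Agent.Helper10.SP

universe u

/-- Holomorphic maps with invertible differential are strictly differentiable with an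
equivalence as derivative. -/
theorem strict_equiv {n : ℕ} {τ : Cn n → Cn n} {U : Set (Cn n)} (hU : IsOpen U)
    (hτ : DifferentiableOn ℂ τ U) {x : Cn n} (hx : x ∈ U) (hdet : (fderiv ℂ τ x).det ≠ 0) :
    ∃ f' : Cn n ≃L[ℂ] Cn n, (f' : Cn n →L[ℂ] Cn n) = fderiv ℂ τ x ∧
      HasStrictFDerivAt τ (f' : Cn n →L[ℂ] Cn n) x := by
  have hcd : ContDiffAt ℂ 1 τ x :=
    ((holo_contDiffOn hU hτ).contDiffAt (hU.mem_nhds hx)).of_le (by simp)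
  have hstr : HasStrictFDerivAt τ (fderiv ℂ τ x) x := hcd.hasStrictFDerivAt one_ne_zero
  obtain ⟨f', hf'⟩ : ∃ f' : Cn n ≃L[ℂ] Cn n, (f' : Cn n →L[ℂ] Cn n) = fderiv ℂ τ x :=
    ⟨(fderiv ℂ τ x).toContinuousLinearEquivOfDetNeZero hdet, by ext x; simp⟩
  exact ⟨f', hf', by rw [hf']; exact hstr⟩

/-- The image of an open set is open. -/
theorem image_open {n : ℕ} {τ : Cn n → Cn n} {U : Set (Cn n)} (hU : IsOpen U)
    (hτ : DifferentiableOn ℂ τ U) (hdet : ∀ x ∈ U, (fderiv ℂ τ x).det ≠ 0) :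
    IsOpen (τ '' U) := by
  rw [isOpen_iff_mem_nhds]
  rintro y ⟨x, hx, rfl⟩
  obtain ⟨f', -, hstr⟩ := strict_equiv hU hτ hx (hdet x hx)
  rw [← hstr.map_nhds_eq_of_equiv]
  exact image_mem_map (hU.mem_nhds hx)

/-- The inverse is holomorphic. -/
theorem inverse_holo {n : ℕ} {τ σ : Cn n → Cn n} {U : Set (Cn n)} (hU : IsOpen U)
    (hτ : DifferentiableOn ℂ τ U) (hdet : ∀ x ∈ U, (fderiv ℂ τ x).det ≠ 0)
    (hσ : ∀ x ∈ U, σ (τ x) = x) : DifferentiableOn ℂ σ (τ '' U) := by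
  rintro y ⟨x, hx, rfl⟩
  obtain ⟨f', -, hstr⟩ := strict_equiv hU hτ hx (hdet x hx)
  have h1 : ∀ᶠ z in 𝓝 x, σ (τ z) = z := by
    filter_upwards [hU.mem_nhds hx] with z hz using hσ z hz
  have h2 : HasStrictFDerivAt σ (f'.symm : Cn n →L[ℂ] Cn n) (τ x) :=
    hstr.to_local_left_inverse h1
  exact h2.hasFDerivAt.differentiableAt.differentiableWithinAt

section

variable {n : ℕ} {T : Set (Cn n)} {G : Type u} [Group G] {R : G → Cn n → Cn n → Prop}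

/-- An arrow is near `x` the local map of `Et.loc`. -/
theorem arrow_eq {γ : G} {U : Set (Cn n)} {τ : Cn n → Cn n} (h : LAr R γ U τ) {x : Cn n}
    (hx : x ∈ U) {τ₀ : Cn n → Cn n} {U₀ W₀ : Set (Cn n)} (hU₀ : IsOpen U₀) (hW₀ : IsOpen W₀)
    (hx₀ : x ∈ U₀) (hy₀ : τ x ∈ W₀) (hiff : ∀ x' ∈ U₀, ∀ y' ∈ W₀, R γ x' y' ↔ y' = τ₀ x') :
    τ =ᶠ[𝓝 x] τ₀ := by
  obtain ⟨hUo, hτ, hR⟩ := h
  have hc : ContinuousAt τ x := (hτ.differentiableAt (hUo.mem_nhds hx)).continuousAt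
  filter_upwards [hUo.mem_nhds hx, hU₀.mem_nhds hx₀, hc.preimage_mem_nhds (hW₀.mem_nhds hy₀)]
    with z hz hz0 hzW
  exact (hiff z hz0 (τ z) hzW).1 (hR z hz)

theorem two (hE : Et T R) (γ : G) (U : Set (Cn n)) (τ : Cn n → Cn n) (h : LAr R γ U τ)
    (x : Cn n) (hx : x ∈ U) :
    (fderiv ℂ τ x).det ≠ 0 ∧ aJ R γ x (τ x) = (fderiv ℂ τ x).det := by
  obtain ⟨τ₀, U₀, W₀, hU₀, hW₀, hx₀, hy₀, hUT, hWT, hd₀, hinj, hmaps, hdet, hiff⟩ :=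
    hE.loc γ x (τ x) (h.2.2 x hx)
  have key : ∀ U' τ', LAr R γ U' τ' → x ∈ U' → τ' x = τ x →
      (fderiv ℂ τ' x).det = (fderiv ℂ τ₀ x).det := by
    intro U' τ' h' hx' he
    have h1 := arrow_eq h' hx' hU₀ hW₀ hx₀ (by rw [he]; exact hy₀) hiff
    rw [h1.fderiv_eq]
  have h2 : ∀ U' τ', LAr R γ U' τ' → x ∈ U' → τ' x = τ x →
      (fderiv ℂ τ' x).det = aJ R γ x (τ x) := by
    have := Classical.epsilon_spec
      (p := fun d : ℂ => ∀ U' τ', LAr R γ U' τ' → x ∈ U' → τ' x = τ x →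
        (fderiv ℂ τ' x).det = d) ⟨_, key⟩
    exact this
  refine ⟨?_, (h2 U τ h hx rfl).symm⟩
  rw [key U τ h hx rfl]
  exact hdet x hx₀

theorem arrb1 (hE : Et T R) (γ : G) (x y : Cn n) (h : R γ x y) :
    ∃ (U : Set (Cn n)) (τ σ : Cn n → Cn n), x ∈ U ∧ U ⊆ T ∧ LAr R γ U τ ∧
      τ x = y ∧ InjOn τ U ∧ LAr R γ⁻¹ (τ '' U) σ ∧ ∀ x' ∈ U, σ (τ x') = x' := by
  obtain ⟨τ, U, W, hU, hW, hx, hy, hUT, hWT, hd, hinj, hmaps, hdet, hiff⟩ := hE.loc γ x y h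
  have hR : ∀ z ∈ U, R γ z (τ z) := fun z hz => (hiff z hz (τ z) (hmaps hz)).2 rfl
  have hτx : τ x = y := ((hiff x hx y hy).1 h).symm
  obtain ⟨σ, hσ⟩ : ∃ σ : Cn n → Cn n, ∀ z ∈ U, σ (τ z) = z :=
    haveI : Nonempty (Cn n) := ⟨0⟩
    ⟨Function.invFunOn τ U, fun z hz => hinj.leftInvOn_invFunOn hz⟩
  refine ⟨U, τ, σ, hx, hUT, ⟨hU, hd, hR⟩, hτx, hinj,
    ⟨image_open hU hd hdet, inverse_holo hU hd hdet hσ, ?_⟩, hσ⟩
  rintro w ⟨z, hz, rfl⟩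
  rw [hσ z hz]
  exact hE.inv _ _ _ (hR z hz)

end

theorem arrb : S_ARRB.{u} := by
  intro n T G _ R hE
  refine ⟨arrb1 hE, two hE, ?_, ⟨?_, ?_, ?_⟩, ?_⟩
  · intro γ U U' τ τ' h h' x hx hx' he
    obtain ⟨τ₀, U₀, W₀, hU₀, hW₀, hx₀, hy₀, -, -, -, -, -, -, hiff⟩ :=
      hE.loc γ x (τ x) (h.2.2 x hx)
    exact (arrow_eq h hx hU₀ hW₀ hx₀ hy₀ hiff).trans
      (arrow_eq h' hx' hU₀ hW₀ hx₀ (by rw [← he]; exact hy₀) hiff).symm
  · intro x hx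
    have h1 : LAr R 1 T id := ⟨hE.isOpen, differentiableOn_id, fun z hz => hE.one z hz⟩
    have h2 := (two hE 1 T id h1 x hx).2
    rw [id] at h2
    rw [h2, fderiv_id]
    exact LinearMap.det_id
  · intro γ x y h
    obtain ⟨U, τ, σ, hx, -, hL, rfl, -⟩ := arrb1 hE γ x y h
    obtain ⟨h1, h2⟩ := two hE γ U τ hL x hx
    rw [h2]
    exact h1
  · intro γ γ' x y z h h'
    obtain ⟨U, τ, -, hx, hUT, hL, rfl, -⟩ := arrb1 hE γ x y h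
    obtain ⟨U', τ', -, hx', hUT', hL', rfl, -⟩ := arrb1 hE γ' (τ x) z h'
    have hV : IsOpen (U ∩ τ ⁻¹' U') := hL.2.1.continuousOn.isOpen_inter_preimage hL.1 hL'.1
    have hL2 : LAr R (γ' * γ) (U ∩ τ ⁻¹' U') (τ' ∘ τ) :=
      ⟨hV, hL'.2.1.comp (hL.2.1.mono inter_subset_left) (fun w hw => hw.2),
        fun w hw => hE.mul _ _ _ _ _ (hL.2.2 w hw.1) (hL'.2.2 (τ w) hw.2)⟩
    have h1 := (two hE _ _ _ hL2 x ⟨hx, hx'⟩).2
    rw [Function.comp_apply] at h1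
    rw [h1, (two hE γ U τ hL x hx).2, (two hE γ' U' τ' hL' (τ x) hx').2,
      fderiv_comp x (hL'.2.1.differentiableAt (hL'.1.mem_nhds hx'))
        (hL.2.1.differentiableAt (hL.1.mem_nhds hx))]
    exact LinearMap.det_comp _ _
  · intro γ x y h
    obtain ⟨τ₀, U₀, W₀, hU₀, hW₀, hx₀, hy₀, -, -, -, -, -, -, hiff⟩ := hE.loc γ x y h
    refine ⟨W₀, hW₀.mem_nhds hy₀, fun y' hy' h' => ?_⟩
    rw [(hiff x hx₀ y' hy').1 h', (hiff x hx₀ y hy₀).1 h]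

end Pool.Agent.Helper32.SP
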