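import Pool.Agent.Helper10.SP.GoalsE
import Pool.Agent.Helper2.SP.PG
import Pool.Agent.Helper27.SP.SURJ
import Pool.Agent.Helper79.SP.LMUL
import Pool.Agent.Helper86.SP.LCONV

/-!
# Packet SP NML: products and inverses of elements near the identity
-/

open Complex Metric Set Filter Topology MeasureTheory
open scoped ContDiff ComplexConjugate

namespace Pool.Agent.Helper32.SP

open Pool.Agent.Helper95.Lin Pool.Agent.Helper10.SP Pool.Agent.Helper45.SP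

theorem nml (hNCV : S_NCV) : S_NML := by
  intro b N c R P Φ C hF i ρ hρ ε hε
  have hG : LGrp (c i) 4 {t | Big c P i t} :=
    (Pool.Agent.Helper2.SP.PG c R P Φ C hF i).toLGrp
  obtain ⟨ρ₁, hρ₁, hρ₁4⟩ : ∃ ρ₁, max ρ 3 < ρ₁ ∧ ρ₁ < 4 :=
    exists_between (max_lt hρ (by norm_num))
  have hρρ₁ : ρ < ρ₁ := lt_of_le_of_lt (le_max_left _ _) hρ₁
  have h3ρ₁ : 3 < ρ₁ := lt_of_le_of_lt (le_max_right _ _) hρ₁
  obtain ⟨ρ₂, hρ₂, hρ₂4⟩ : ∃ ρ₂, ρ₁ < ρ₂ ∧ ρ₂ < 4 := exists_between hρ₁4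
  set δ : ℝ := min (ε / 4) (min (1 / 2) (ρ₂ - ρ₁)) with hδ
  have hδ0 : 0 < δ := lt_min (by positivity) (lt_min (by norm_num) (by linarith))
  have hδε : δ ≤ ε / 4 := min_le_left _ _
  have hδ1 : δ ≤ 1 / 2 := (min_le_right _ _).trans (min_le_left _ _)
  have hδρ : δ ≤ ρ₂ - ρ₁ := (min_le_right _ _).trans (min_le_right _ _)
  obtain ⟨η₁, hη₁, H1⟩ := hNCV c R P Φ C hF i (c i) 3 (by norm_num)
    (ball_subset_ball (by norm_num)) ρ₂ hρ₂4 δ hδ0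
  obtain ⟨η₂, hη₂, H2⟩ := Pool.Agent.Helper79.SP.LMUL Pool.Agent.Helper86.SP.LCONV
    Pool.Agent.Helper27.SP.SURJ hG ρ₁ hρ₁4 δ hδ0
  have hsub : ball (c i) ρ ⊆ ball (c i) ρ₁ := ball_subset_ball hρρ₁.le
  have hsub2 : ball (c i) ρ₁ ⊆ ball (c i) ρ₂ := ball_subset_ball hρ₂.le
  have hnear : ∀ s, NrA c P i 3 (min η₁ η₂) s → Near (c i) (4 / 2) s.g η₂ := by
    intro s hs z hz
    exact ((hs.2 z (ball_subset_ball (by norm_num) hz)).1).trans (min_le_right _ _)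
  have hbig : ∀ s, NrA c P i 3 (min η₁ η₂) s → ∀ z ∈ ball (c i) ρ₂,
      ‖s.g z - z‖ ≤ δ ∧ ‖s.a z - 1‖ ≤ δ := by
    intro s hs
    exact H1 s hs.1 fun z hz => ⟨((hs.2 z hz).1).trans (min_le_left _ _),
      ((hs.2 z hz).2).trans (min_le_left _ _)⟩
  have hmv : ∀ (f : Cn b → Cn b) (z : Cn b), z ∈ ball (c i) ρ₁ → ‖f z - z‖ ≤ δ →
      f z ∈ ball (c i) ρ₂ := by
    intro f z hz h
    rw [mem_ball] at hz ⊢
    have h1 : dist (f z) z ≤ δ := by rw [dist_eq_norm]; exact h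
    have h2 := dist_triangle (f z) z (c i)
    linarith
  refine ⟨min η₁ η₂, lt_min hη₁ hη₂, fun t ht => ?_⟩
  obtain ⟨m1, -, m2⟩ := H2 t ht.1 (hnear t ht)
  refine ⟨fun s hs => ?_, ?_, ?_⟩
  · obtain ⟨h1, u, hu, hue⟩ := m1 s hs.1 (hnear s hs)
    refine ⟨h1.mono_left hsub, u, ⟨hu, fun z hz => ?_⟩, fun z hz => hue z (hsub hz)⟩
    obtain ⟨e1, e2, -⟩ := hue z (hsub hz)
    have e1' : u.g z = t.g (s.g z) := e1
    have e2' : u.a z = t.a (s.g z) * s.a z := e2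
    obtain ⟨s1, s2⟩ := hbig s hs z (hsub2 (hsub hz))
    obtain ⟨t1, t2⟩ := hbig t ht (s.g z) (hmv s.g z (hsub hz) s1)
    constructor
    · rw [e1']
      calc ‖t.g (s.g z) - z‖ = ‖(t.g (s.g z) - s.g z) + (s.g z - z)‖ := by
            congr 1; abel
        _ ≤ δ + δ := (norm_add_le _ _).trans (add_le_add t1 s1)
        _ ≤ ε := by linarith
    · rw [e2']
      calc ‖t.a (s.g z) * s.a z - 1‖ = ‖(t.a (s.g z) - 1) * (s.a z - 1) +
            (t.a (s.g z) - 1) + (s.a z - 1)‖ := by congr 1; ring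
        _ ≤ ‖(t.a (s.g z) - 1) * (s.a z - 1)‖ + ‖t.a (s.g z) - 1‖ + ‖s.a z - 1‖ :=
            norm_add₃_le
        _ ≤ δ * δ + δ + δ := by
            rw [norm_mul]
            gcongr
        _ ≤ ε := by nlinarith
  · intro z hz
    exact ball_subset_ball hρ₂4.le (hmv t.g z (hsub hz) (hbig t ht z (hsub2 (hsub hz))).1)
  · obtain ⟨u, hu, h1, h2, h3, h4⟩ := m2
    refine ⟨u, ⟨hu, fun z hz => ?_⟩, h3.mono_left hsub, fun z hz => h1 z (hsub hz),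
      fun z hz => h2 z (hsub hz)⟩
    have g1 := h4 z (hsub hz)
    refine ⟨g1.trans (by linarith), ?_⟩
    obtain ⟨t1, t2⟩ := hbig t ht (u.g z) (hmv u.g z (hsub hz) g1)
    have e2 : t.a (u.g z) * u.a z = 1 := (h2 z (hsub hz)).2.1
    -- `‖u.a z‖ ≤ 2`
    have n1 : 1 / 2 ≤ ‖t.a (u.g z)‖ := by
      have := norm_sub_norm_le (1 : ℂ) (1 - t.a (u.g z))
      rw [sub_sub_cancel, norm_one, norm_sub_rev] at this
      linarith
    have n2 : ‖t.a (u.g z)‖ * ‖u.a z‖ = 1 := by rw [← norm_mul, e2, norm_one]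
    have n3 : ‖u.a z‖ ≤ 2 := by
      have := norm_nonneg (u.a z)
      nlinarith
    calc ‖u.a z - 1‖ = ‖(t.a (u.g z) - 1) * u.a z‖ := by
          rw [sub_mul, e2, one_mul, norm_sub_rev]
      _ ≤ δ * 2 := by
          rw [norm_mul]
          gcongr
      _ ≤ ε := by linarith

end Pool.Agent.Helper32.SP
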