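import Pool.Agent.Helper45.SP.GoalsF
import Pool.Agent.Helper88.Lin.ADAPX
import Pool.Agent.Helper68.Lin.CAU

/-!
# Packet SP LADAPX: first order behaviour of the adjoint action
-/

open Complex Metric Set Filter Topology
open scoped ContDiff ComplexConjugate

namespace Pool.Agent.Helper32.SP

open Pool.Agent.Helper95.Lin Pool.Agent.Helper45.SP Pool.Agent.Helper88.Lin

theorem LADAPX (hSURJ : S_SURJ) : S_LADAPX := by
  intro b z₀ r hr V W hV' hW' ρ hρ ε hε
  have hsub : ball z₀ (r / 2) ⊆ ball z₀ r := ball_subset_ball (by linarith)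
  have hV : DifferentiableOn ℂ V (ball z₀ (r / 2)) := hV'.mono hsub
  have hW : DifferentiableOn ℂ W (ball z₀ (r / 2)) := hW'.mono hsub
  have hopen : IsOpen (ball z₀ (r / 2)) := isOpen_ball
  have hK : closedBall z₀ ρ ⊆ ball z₀ (r / 2) := closedBall_subset_ball hρ
  have hKc : IsCompact (closedBall z₀ ρ) := isCompact_closedBall _ _
  obtain ⟨K₁, hK₁, hK₁c, hKK₁, M, Λ, δ, hM, hΛ, hδ, hnb, hbd, hbd', hlip⟩ :=
    pack hopen hK hKc hV hW
  obtain ⟨K', hK', hK'c, hint, C, hC, hcau⟩ :=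
    Pool.Agent.Helper68.Lin.CAU (n := b) (m := b) (ball z₀ (r / 2)) hopen K₁ hK₁ hK₁c
  have hK₁K' : K₁ ⊆ K' := hint.trans interior_subset
  obtain ⟨MV, hMV, hbV⟩ := exists_bd (closedBall_subset_ball (by linarith : r / 2 < r))
    (isCompact_closedBall z₀ (r / 2)) hV'
  obtain ⟨η, hη, hsurj⟩ := hSURJ z₀ ρ (r / 2) hρ δ hδ
  set ε' : ℝ := min 1 (ε / (2 * (M + C * M + 1))) with hε'
  have hε'0 : 0 < ε' := lt_min one_pos (by positivity)
  have hε'1 : ε' ≤ 1 := min_le_left _ _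
  have hε'2 : ε' * (M + C * M) ≤ ε / 2 := by
    have h1 : ε' ≤ ε / (2 * (M + C * M + 1)) := min_le_right _ _
    rw [le_div_iff₀ (by positivity)] at h1
    nlinarith
  set A : ℝ := M + 1 with hA
  have hA0 : 0 ≤ A := by positivity
  set Q : ℝ := Λ * A ^ 2 + 3 * M * Λ * A with hQ
  have hQ0 : 0 ≤ Q := by positivity
  refine ⟨ε', hε'0, min (η / (MV + 1)) (ε / (2 * (Q + 1))),
    lt_min (by positivity) (by positivity), fun σ hσ hσ' t ht hγ W' hAd z hz => ?_⟩
  have e1 : σ < η / (MV + 1) := hσ'.trans_le (min_le_left _ _)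
  have e3 : σ < ε / (2 * (Q + 1)) := hσ'.trans_le (min_le_right _ _)
  rw [lt_div_iff₀ (by positivity)] at e1 e3
  have hzK : z ∈ closedBall z₀ ρ := ball_subset_closedBall hz
  have hzD := hK hzK
  have hzK₁ := hKK₁ hzK
  -- `t` is near the identity
  have hnear : Near z₀ (r / 2) t η := by
    intro x hx
    have h4 : t x - x = (t x - x - σ • V x) + σ • V x := by abel
    rw [h4]
    refine (norm_add_le _ _).trans ?_
    have h5 : ‖σ • V x‖ ≤ σ * MV := by
      rw [norm_smul, Real.norm_of_nonneg hσ.le]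
      exact mul_le_mul_of_nonneg_left (hbV x (ball_subset_closedBall hx)) hσ.le
    have h6 := hγ x hx
    nlinarith
  -- the point y
  obtain ⟨y, hyD, hgy, hyδ⟩ := (hsurj t (ht.mono hsub) hnear).1 z hz
  have hyK₁ : y ∈ K₁ := hnb z hzK y hyδ
  have h3 : ‖y - z‖ ≤ A * σ := by
    have h4 : y - z = -((t y - y - σ • V y) + σ • V y) := by rw [hgy]; abel
    rw [h4, norm_neg]
    refine (norm_add_le _ _).trans ?_
    have h5 : ‖σ • V y‖ ≤ σ * M := by
      rw [norm_smul, Real.norm_of_nonneg hσ.le]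
      exact mul_le_mul_of_nonneg_left (hbd y hyK₁).1 hσ.le
    have h6 := hγ y hyD
    rw [hA]
    nlinarith
  -- the error field
  set f : Cn b → Cn b := fun x => t x - x - σ • V x with hf
  have hfd : DifferentiableOn ℂ f (ball z₀ (r / 2)) :=
    ((ht.mono hsub).sub differentiableOn_id).sub (hV.const_smul σ)
  have hDf := (hcau f hfd (ε' * σ) (fun x hx => hγ x (hK' hx))).1 y hyK₁
  have hgat : DifferentiableAt ℂ t y := ((ht.mono hsub) y hyD).differentiableAt
    (hopen.mem_nhds hyD)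
  have hVat : DifferentiableAt ℂ V y := (hV y hyD).differentiableAt (hopen.mem_nhds hyD)
  have hfder : fderiv ℂ f y = fderiv ℂ t y - ContinuousLinearMap.id ℂ (Cn b) -
      σ • fderiv ℂ V y :=
    ((hgat.hasFDerivAt.sub (hasFDerivAt_id y)).sub (hVat.hasFDerivAt.const_smul σ)).fderiv
  have hAd' : W' z = fderiv ℂ t y (W y) := by
    have := hAd y hyD
    rwa [hgy] at this
  -- decomposition
  set u1 := W y - W z - fderiv ℂ W z (y - z) with hu1
  set u2 := y - z + σ • V z with hu2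
  set u3 := σ • (fderiv ℂ V y (W y) - fderiv ℂ V z (W z)) with hu3
  set E := fderiv ℂ f y (W y) with hE
  have hdec : W' z - W z + σ • brV V W z = u1 + fderiv ℂ W z u2 + u3 + E := by
    rw [hAd', hu1, hu2, hu3, hE, hfder]
    unfold brV
    simp only [ContinuousLinearMap.sub_apply, ContinuousLinearMap.smul_apply,
      ContinuousLinearMap.id_apply, map_add, map_sub, smul_sub]
    have : fderiv ℂ W z (σ • V z) = σ • fderiv ℂ W z (V z) :=
      (fderiv ℂ W z).map_smul_of_tower σ (V z)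
    rw [this]
    abel
  -- the four estimates
  have b1 : ‖u1‖ ≤ Λ * A ^ 2 * σ ^ 2 := by
    have hsub : closedBall z ‖y - z‖ ⊆ K₁ := fun x hx => hnb z hzK x (by
      rw [mem_closedBall, dist_eq_norm] at hx
      exact hx.trans hyδ)
    have h5 : ‖W y - W z - fderiv ℂ W z (y - z)‖ ≤ (Λ * ‖y - z‖) * ‖y - z‖ := by
      refine (convex_closedBall z ‖y - z‖).norm_image_sub_le_of_norm_fderiv_le' (𝕜 := ℂ)
        (fun x hx => ?_) (fun x hx => ?_) (mem_closedBall_self (norm_nonneg _)) ?_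
      · exact (hW x (hK₁ (hsub hx))).differentiableAt (hopen.mem_nhds (hK₁ (hsub hx)))
      · rw [mem_closedBall, dist_eq_norm] at hx
        exact ((hlip z hzK x (hx.trans hyδ)).2.2.2).trans (mul_le_mul_of_nonneg_left hx hΛ)
      · rw [mem_closedBall, dist_eq_norm]
    refine h5.trans ?_
    calc Λ * ‖y - z‖ * ‖y - z‖ ≤ Λ * (A * σ) * (A * σ) := by gcongr
      _ = Λ * A ^ 2 * σ ^ 2 := by ring
  have b2 : ‖fderiv ℂ W z u2‖ ≤ M * (ε' * σ + Λ * A * σ ^ 2) := by
    have h5 : u2 = -(f y) - σ • (V y - V z) := by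
      rw [hu2, hf]
      simp only
      rw [hgy, smul_sub]
      abel
    have h6 : ‖u2‖ ≤ ε' * σ + Λ * A * σ ^ 2 := by
      rw [h5]
      refine (norm_sub_le _ _).trans (add_le_add ?_ ?_)
      · rw [norm_neg]
        exact hγ y hyD
      · rw [norm_smul, Real.norm_of_nonneg hσ.le]
        calc σ * ‖V y - V z‖ ≤ σ * (Λ * (A * σ)) := by
              refine mul_le_mul_of_nonneg_left ?_ hσ.le
              exact ((hlip z hzK y hyδ).1).trans (mul_le_mul_of_nonneg_left h3 hΛ)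
          _ = Λ * A * σ ^ 2 := by ring
    exact (ContinuousLinearMap.le_opNorm _ _).trans
      (mul_le_mul (hbd' z hzK₁).2 h6 (norm_nonneg _) hM)
  have b3 : ‖u3‖ ≤ 2 * M * Λ * A * σ ^ 2 := by
    have h5 : fderiv ℂ V y (W y) - fderiv ℂ V z (W z) =
        (fderiv ℂ V y - fderiv ℂ V z) (W y) + fderiv ℂ V z (W y - W z) := by
      simp only [ContinuousLinearMap.sub_apply, map_sub]
      abel
    have h6 : ‖fderiv ℂ V y (W y) - fderiv ℂ V z (W z)‖ ≤
        (Λ * (A * σ)) * M + M * (Λ * (A * σ)) := by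
      rw [h5]
      refine (norm_add_le _ _).trans (add_le_add ?_ ?_)
      · refine (ContinuousLinearMap.le_opNorm _ _).trans ?_
        refine mul_le_mul ?_ (hbd y hyK₁).2 (norm_nonneg _) (by positivity)
        exact ((hlip z hzK y hyδ).2.2.1).trans (mul_le_mul_of_nonneg_left h3 hΛ)
      · refine (ContinuousLinearMap.le_opNorm _ _).trans ?_
        refine mul_le_mul (hbd' z hzK₁).1 ?_ (norm_nonneg _) hM
        exact ((hlip z hzK y hyδ).2.1).trans (mul_le_mul_of_nonneg_left h3 hΛ)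
    rw [hu3, norm_smul, Real.norm_of_nonneg hσ.le]
    refine (mul_le_mul_of_nonneg_left h6 hσ.le).trans (le_of_eq ?_)
    ring
  have b4 : ‖E‖ ≤ C * (ε' * σ) * M := by
    refine (ContinuousLinearMap.le_opNorm _ _).trans ?_
    exact mul_le_mul hDf (hbd y hyK₁).2 (norm_nonneg _) (by positivity)
  rw [hdec]
  have hQσ : Q * σ ≤ ε / 2 := by nlinarith
  calc ‖u1 + fderiv ℂ W z u2 + u3 + E‖ ≤ ‖u1‖ + ‖fderiv ℂ W z u2‖ + ‖u3‖ + ‖E‖ :=
        (norm_add_le _ _).trans (add_le_add ((norm_add_le _ _).trans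
          (add_le_add (norm_add_le _ _) le_rfl)) le_rfl)
    _ ≤ Λ * A ^ 2 * σ ^ 2 + M * (ε' * σ + Λ * A * σ ^ 2) + 2 * M * Λ * A * σ ^ 2 +
        C * (ε' * σ) * M := by gcongr
    _ = (ε' * (M + C * M)) * σ + (Q * σ) * σ := by
        rw [hQ]
        ring
    _ ≤ ε / 2 * σ + ε / 2 * σ := by gcongr
    _ = ε * σ := by ring

end Pool.Agent.Helper32.SP
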